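import Pool.Agent.WAP.StmtsL
import Pool.Agent.Helper32_WAP.Add

/-!
# MCY of the squad WAP (problem MP_ff4683_nt)

The points of the twist modulo the kernel of reduction form a cyclic module over the Gaussian
integers.
-/

set_option autoImplicit false

namespace Pool.Agent.WAP.H69

open Classical Polynomial WeierstrassCurve.Affine
open Pool.Agent.WAP

section basic

variable {F : Type} [Field F] {d : F}

theorem cX_tor (h2 : (2 : F) ≠ 0) (hd : d ≠ 0) {e : F} (he : e ^ 3 = e) :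
    tor d e ≠ 0 ∧ cX (tor d e) = e * d ∧ cY (tor d e) = 0 := by
  have h : (W d).Nonsingular (e * d) 0 := by
    rw [W_nonsingular d _ _ h2 hd]
    linear_combination (-d ^ 3) * he
  have h1 : tor d e = Point.some (e * d) 0 h := by
    unfold tor mkPt
    rw [dif_pos h]
  rw [h1]
  exact ⟨Point.some_ne_zero h, rfl, rfl⟩

variable [Algebra GaussianInt F]

theorem cX_iPt (P : Pt d) : cX (iPt P) = -cX P := by
  rcases P with _ | ⟨X, Y, h⟩
  · show (0 : F) = -0
    ring
  · rfl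

theorem cY_iPt (P : Pt d) : cY (iPt P) = ii F * cY P := by
  rcases P with _ | ⟨X, Y, h⟩
  · show (0 : F) = ii F * 0
    ring
  · rfl

theorem iPt_ne {P : Pt d} (hP : P ≠ 0) : iPt P ≠ 0 := by
  rcases P with _ | ⟨X, Y, h⟩
  · exact absurd rfl hP
  · exact Point.some_ne_zero _

theorem iPt_tor (h2 : (2 : F) ≠ 0) (hd : d ≠ 0) : iPt (tor d 1) = tor d (-1) := by
  obtain ⟨a1, a2, a3⟩ := cX_tor (e := 1) h2 hd (by ring)
  obtain ⟨b1, b2, b3⟩ := cX_tor (e := -1) h2 hd (by ring)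
  refine H32.ext_pt (iPt_ne a1) b1 ?_ ?_
  · rw [cX_iPt, a2, b2]
    ring
  · rw [cY_iPt, a3, b3]
    ring

theorem add_tor (h2 : (2 : F) ≠ 0) (hd : d ≠ 0) : tor d 1 + iPt (tor d 1) = tor d 0 := by
  rw [iPt_tor h2 hd]
  obtain ⟨a1, a2, a3⟩ := cX_tor (e := 1) h2 hd (by ring)
  obtain ⟨b1, b2, b3⟩ := cX_tor (e := -1) h2 hd (by ring)
  obtain ⟨c1, c2, c3⟩ := cX_tor (e := 0) h2 hd (by ring)
  have hne : cX (tor d 1) ≠ cX (tor d (-1)) := by
    rw [a2, b2]
    intro h
    have h3 : 2 * d = 0 := by linear_combination h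
    rcases mul_eq_zero.1 h3 with h4 | h4
    · exact h2 h4
    · exact hd h4
  obtain ⟨e1, e2, e3⟩ := H32.add_ne a1 b1 hne
  refine H32.ext_pt e1 c1 ?_ ?_
  · rw [e2, a2, b2, a3, b3, c2]
    ring
  · rw [e3, a3, b3, c3]
    ring

theorem sm_one (P : Pt d) : sm 1 P = P := by
  show gsm (algebraMap GaussianInt F) 1 P = P
  simp [gsm]

theorem sm_zero_left (P : Pt d) : sm 0 P = 0 := by
  show gsm (algebraMap GaussianInt F) 0 P = 0
  simp [gsm]

theorem sm_i (P : Pt d) : sm (⟨0, 1⟩ : GaussianInt) P = iPt P := by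
  rw [sm_def]
  simp

theorem sm_lam (P : Pt d) : sm (⟨1, 1⟩ : GaussianInt) P = P + iPt P := by
  rw [sm_def]
  simp

end basic

theorem norm_le {a b : GaussianInt} (h : a ∣ b) (hb : b ≠ 0) : nm a ≤ nm b := by
  obtain ⟨c, rfl⟩ := h
  unfold nm
  rw [Zsqrtd.norm_mul, Int.natAbs_mul]
  have hc : c ≠ 0 := by
    rintro rfl
    exact hb (mul_zero a)
  have h1 : 0 < c.norm := (GaussianInt.norm_pos).2 hc
  have h2 : 1 ≤ c.norm.natAbs := by omega
  exact Nat.le_mul_of_pos_right _ h2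

/-- MCY. -/
theorem mcy (zlv : ZlvStmt) (div : DivStmt) (cnt : CntStmt) (ram : RamStmt) (tb : TorStmt)
    (dep : DepStmt) (mca : McaStmt) (pt2 : Pt2Stmt) : McyStmt := by
  intro F _ _ ϖ hF h2 d hd
  have hd0 : d ≠ 0 := by
    rintro rfl
    rw [norm_zero] at hd
    rcases hd with h | h
    · exact zero_ne_one h
    · exact hF.uni.ne h
  have h20 : (2 : F) ≠ 0 := by
    intro h
    apply h2
    rw [← hF.lt_one 2, map_ofNat, h, norm_zero]
    exact one_pos
  rcases hd with hd | hd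
  · -- the unramified case
    letI : Module GaussianInt (Pt d) := gmod (algebraMap GaussianInt F)
    have hsmul : ∀ (a : GaussianInt) (P : Pt d), a • P = sm a P := fun _ _ => rfl
    obtain ⟨z1, z2, -⟩ := zlv F ϖ hF d hd0
    have hadd : ∀ P Q : Pt d, Big 1 P → Big 1 Q → Big 1 (P + Q) := by
      intro P Q hP hQ
      exact (z1 (max ‖zc P‖ ‖zc Q‖) P Q ⟨hP, le_max_left _ _⟩ ⟨hQ, le_max_right _ _⟩).1.1
    have hsub : ∀ P Q : Pt d, Big 1 P → Big 1 Q → Big 1 (P - Q) := by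
      intro P Q hP hQ
      exact (z1 (max ‖zc P‖ ‖zc Q‖) P Q ⟨hP, le_max_left _ _⟩ ⟨hQ, le_max_right _ _⟩).2.2.1
    have hsm : ∀ (a : GaussianInt) (P : Pt d), Big 1 P → Big 1 (sm a P) := by
      intro a P hP
      exact (z2 ‖zc P‖ a P ⟨hP, le_rfl⟩).1
    obtain ⟨G, hG⟩ : ∃ G : Submodule GaussianInt (Pt d), ∀ P, P ∈ G ↔ Big 1 P :=
      ⟨{ carrier := {P | Big 1 P}
         add_mem' := fun {P Q} hP hQ => hadd P Q hP hQ
         zero_mem' := Or.inl rfl
         smul_mem' := fun a P hP => hsm a P hP }, fun _ => Iff.rfl⟩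
    have hcount : ∀ A : Finset (Pt d), (∀ x ∈ A, ∀ y ∈ A, x ≠ y → x - y ∉ G) →
        A.card ≤ 2 * nm ϖ + 1 := by
      intro A hA
      refine cnt F ϖ hF h2 d hd A fun P hP Q hQ hPQ hB => ?_
      exact hA P hP Q hQ hPQ ((hG _).2 hB)
    have hprime : ∀ l : GaussianInt, Prime l → ∀ x y : Pt d, l • x ∈ G → l • y ∈ G → x ∉ G →
        ∃ a : GaussianInt, y - a • x ∈ G := by
      intro l hl x y hx hy hxG
      rw [hG, hsmul] at hx hy
      rw [hG] at hxG
      by_cases hdvd : ϖ ∣ l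
      · exfalso
        apply hxG
        refine pt2 F ϖ hF h2 d (Or.inl hd) l hl ?_ (norm_le hdvd hl.ne_zero) x hx
        intro h
        exact h2 (dvd_trans hdvd h)
      · obtain ⟨x', hx'G, hx'⟩ := div F ϖ hF d hd0 l (sm l x) hdvd hx
        obtain ⟨y', hy'G, hy'⟩ := div F ϖ hF d hd0 l (sm l y) hdvd hy
        have hne : x - x' ≠ 0 := by
          intro h
          apply hxG
          rw [sub_eq_zero] at h
          rw [h]
          exact hx'G
        obtain ⟨a, ha⟩ := dep (Pt d) l hl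
          (fun A hA => tb F d h20 hd0 l hl.ne_zero A fun P hP => hA P hP) (x - x') (y - y')
          (by rw [smul_sub, hsmul, hsmul, hx', sub_self])
          (by rw [smul_sub, hsmul, hsmul, hy', sub_self]) hne
        refine ⟨a, ?_⟩
        rw [hG]
        have h5 : y - a • x = y' - a • x' := by
          rw [smul_sub] at ha
          have h6 : y - a • x - (y' - a • x') = (y - y') - (a • x - a • x') := by abel
          rw [← sub_eq_zero, h6, ha, sub_self]
        rw [h5]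
        exact hsub _ _ hy'G (hsm a x' hx'G)
    obtain ⟨g, hg⟩ := mca (Pt d) G (2 * nm ϖ + 1) hcount hprime
    refine ⟨g, fun P => ?_⟩
    obtain ⟨a, ha⟩ := hg P
    exact ⟨a, (hG _).1 ha⟩
  · -- the ramified case
    refine ⟨tor d 1, fun P => ?_⟩
    rcases ram F ϖ hF h2 d hd P with h | h | h | h
    · refine ⟨0, ?_⟩
      rw [sm_zero_left, sub_zero]
      exact h
    · refine ⟨⟨1, 1⟩, ?_⟩
      rw [sm_lam, add_tor h20 hd0]
      exact h
    · refine ⟨1, ?_⟩
      rw [sm_one]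
      exact h
    · refine ⟨⟨0, 1⟩, ?_⟩
      rw [sm_i, iPt_tor h20 hd0]
      exact h

end Pool.Agent.WAP.H69
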